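import Pool.Agent.N208.BT.Stm5

/-!
# BG/WB: coordinates on the simple submodule, any signature (helper455; adapted from BT/WB of helper558)
-/

set_option autoImplicit false

open Module Matrix

noncomputable section

namespace Pool.Agent.N455.BGWB

open Pool.Agent.Y102 Pool.Agent.W516.DR Pool.Agent.H204R3.GP Pool.Agent.W516.KC
  Pool.Agent.H204R3.SP Pool.Agent.TH119.MX Pool.Agent.R917 Pool.Agent.N208.AM Pool.Agent.N208.AD
  Pool.Agent.N208.BT

theorem exists_onb {T : Type} [AddCommGroup T] [Module ℂ T] [FiniteDimensional ℂ T]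
    (cd : InnerProductSpace.Core ℂ T) (S : Submodule ℂ T) :
    ∃ (n : ℕ) (b : Basis (Fin n) ℂ S),
      ∀ i j, cd.inner (b i : T) (b j : T) = if i = j then 1 else 0 := by
  let _ : NormedAddCommGroup T := cd.toNormedAddCommGroup
  let _ : InnerProductSpace ℂ T := InnerProductSpace.ofCore cd.toCore
  refine ⟨_, (stdOrthonormalBasis ℂ S).toBasis, fun i j => ?_⟩
  have h := (stdOrthonormalBasis ℂ S).orthonormal
  rw [orthonormal_iff_ite] at h
  rw [OrthonormalBasis.coe_toBasis]
  exact h i j

theorem ip_sum {T : Type} [AddCommGroup T] [Module ℂ T]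
    (cd : InnerProductSpace.Core ℂ T) {m : ℕ} (f : Fin m → T)
    (hf : ∀ i j, cd.inner (f i) (f j) = if i = j then 1 else 0) (s t : Fin m → ℂ) :
    cd.inner (∑ i, s i • f i) (∑ i, t i • f i) = ∑ i, star (s i) * t i := by
  let _ : NormedAddCommGroup T := cd.toNormedAddCommGroup
  let _ : InnerProductSpace ℂ T := InnerProductSpace.ofCore cd.toCore
  have h1 : Orthonormal ℂ f := orthonormal_iff_ite.2 hf
  exact h1.inner_sum s t Finset.univ

variable {g : ℕ} {A : AbVar g}

theorem ext_smulC {P : Module.End ℚ A.H1} (hP : P ∈ A.EA) (c : ℂ) (u : Fin g → ℂ) :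
    A.ext P (c • u) = c • A.ext P u :=
  AbVar.CR_complex A.endAlg (Submodule.subset_span ⟨P, hP, rfl⟩) c u

theorem E_skew {z : Module.End ℚ A.H1} (hz : IsSkew A.om z) (u v : Fin g → ℂ) :
    A.E (A.ext z u) v = -A.E u (A.ext z v) := by
  have h2 : A.E.comp (A.ext z) = -(A.E.flip.comp (A.ext z)).flip := by
    refine A.ext_per fun u => A.ext_per fun v => ?_
    change A.E (A.ext z (A.per u)) (A.per v) = -A.E (A.per u) (A.ext z (A.per v))
    rw [A.ext_apply, A.ext_apply, ← A.om_coe, ← A.om_coe, ← Rat.cast_neg]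
    congr 1
    linear_combination hz u v
  exact congrArg (fun F : (Fin g → ℂ) →ₗ[ℝ] (Fin g → ℂ) →ₗ[ℝ] ℝ => F u v) h2

/-- the hermitian form -/
def ip (A : AbVar g) (x y : Fin g → ℂ) : ℂ := (A.core.inner x y : ℂ)

theorem ip_eq (x y : Fin g → ℂ) :
    ip A x y = (A.E x (Complex.I • y) : ℂ) + Complex.I * (A.E x y : ℂ) := rfl

theorem ip_im (x y : Fin g → ℂ) : (ip A x y).im = A.E x y := by
  rw [ip_eq]
  simp

theorem ip_smul_left (c : ℂ) (x y : Fin g → ℂ) : ip A (c • x) y = star c * ip A x y :=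
  A.core.smul_left x y c

theorem ip_star (x y : Fin g → ℂ) : star (ip A y x) = ip A x y := A.core.conj_inner_symm x y

theorem ip_smul_right (c : ℂ) (x y : Fin g → ℂ) : ip A x (c • y) = c * ip A x y := by
  rw [← ip_star, ip_smul_left, star_mul', star_star, ip_star]

variable {z : Module.End ℚ A.H1} {al : ℝ}

theorem ip_skew (h : HQ A z al) (x y : Fin g → ℂ) :
    ip A (A.ext z x) y = -ip A x (A.ext z y) := by
  rw [ip_eq, ip_eq, E_skew h.skew, E_skew h.skew, ext_smulC h.mem]
  push_cast
  ring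

/-- the eigenspaces are orthogonal -/
theorem ip_zero (h : HQ A z al) {x y : Fin g → ℂ} (hx : Eig A z al x) (hy : Eig A z (-al) y) :
    ip A x y = 0 := by
  have h1 := ip_skew h x y
  rw [hx, hy, ip_smul_left, ip_smul_right] at h1
  have h2 : star ((al : ℂ) * Complex.I) = -((al : ℂ) * Complex.I) := by
    rw [star_mul']
    have a1 : star (al : ℂ) = al := Complex.conj_ofReal al
    have a2 : star Complex.I = -Complex.I := Complex.conj_I
    rw [a1, a2]
    ring
  rw [h2] at h1
  push_cast at h1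
  have h3 : ((al : ℂ) * Complex.I) * ip A x y = 0 := by linear_combination (-1 / 2 : ℂ) * h1
  refine (mul_eq_zero.1 h3).resolve_left (mul_ne_zero ?_ Complex.I_ne_zero)
  exact_mod_cast h.ne

/-- the coordinates -/
def ph {r s : ℕ} (f : Fin (r + s) → (Fin g → ℂ)) : VN (r + s) →ₗ[ℝ] (Fin g → ℂ) where
  toFun x := ∑ i : Fin r, x (Fin.castAdd s i) • f (Fin.castAdd s i) +
    ∑ j : Fin s, star (x (Fin.natAdd r j)) • f (Fin.natAdd r j)
  map_add' x y := by
    simp only [Pi.add_apply, star_add, add_smul, Finset.sum_add_distrib]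
    abel
  map_smul' c x := by
    have hc : ∀ a : ℂ, star (c • a) = c • star a := fun a => by
      rw [← Complex.coe_smul, smul_eq_mul, star_mul', ← Complex.coe_smul, smul_eq_mul]
      congr 1
      exact Complex.conj_ofReal c
    simp only [Pi.smul_apply, hc, smul_assoc, RingHom.id_apply, smul_add, Finset.smul_sum]

theorem ph_apply {r s : ℕ} (f : Fin (r + s) → (Fin g → ℂ)) (x : VN (r + s)) :
    ph f x = ∑ i : Fin r, x (Fin.castAdd s i) • f (Fin.castAdd s i) +
    ∑ j : Fin s, star (x (Fin.natAdd r j)) • f (Fin.natAdd r j) := rfl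

/-- the coefficients -/
def cf {r s : ℕ} (x : VN (r + s)) : Fin (r + s) → ℂ :=
  Fin.append (fun i => x (Fin.castAdd s i)) (fun j => star (x (Fin.natAdd r j)))

theorem cf_l {r s : ℕ} (x : VN (r + s)) (i : Fin r) : cf x (Fin.castAdd s i) = x (Fin.castAdd s i) := by
  unfold cf
  rw [Fin.append_left]

theorem cf_r {r s : ℕ} (x : VN (r + s)) (j : Fin s) :
    cf x (Fin.natAdd r j) = star (x (Fin.natAdd r j)) := by
  unfold cf
  rw [Fin.append_right]

theorem ph_eq {r s : ℕ} (f : Fin (r + s) → (Fin g → ℂ)) (x : VN (r + s)) :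
    ph f x = ∑ i, cf x i • f i := by
  rw [ph_apply, Fin.sum_univ_add]
  simp only [cf_l, cf_r]

/-- the signature -/
def sgn (r s : ℕ) : Fin (r + s) → ℝ := Fin.append (fun _ => 1) (fun _ => -1)

theorem sgn_l (r s : ℕ) (i : Fin r) : sgn r s (Fin.castAdd s i) = 1 := by
  unfold sgn
  rw [Fin.append_left]

theorem sgn_r (r s : ℕ) (j : Fin s) : sgn r s (Fin.natAdd r j) = -1 := by
  unfold sgn
  rw [Fin.append_right]

section

variable {W : Submodule ℝ (Fin g → ℂ)}

theorem W_I (H : WS' A z al W) {x : Fin g → ℂ} (hx : x ∈ W) : Complex.I • x ∈ W := by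
  have key : ∀ Y ∈ spE A (A.NA : Set (Module.End ℚ A.H1)), Y x ∈ W := by
    intro Y hY
    induction hY using Submodule.span_induction with
    | mem Y hY =>
      obtain ⟨X, hX, rfl⟩ := hY
      exact H.stab X hX x hx
    | zero => rw [LinearMap.zero_apply]; exact W.zero_mem
    | add a b _ _ ha hb => rw [LinearMap.add_apply]; exact W.add_mem ha hb
    | smul c a _ ha => rw [LinearMap.smul_apply]; exact W.smul_mem c ha
  exact key _ JJ_mem

theorem W_smul (H : WS' A z al W) {x : Fin g → ℂ} (hx : x ∈ W) (c : ℂ) : c • x ∈ W := by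
  have h3 : c • x = c.re • x + c.im • (Complex.I • x) := by
    conv_lhs => rw [← Complex.re_add_im c]
    rw [add_smul, mul_smul]
    rfl
  rw [h3]
  exact W.add_mem (W.smul_mem _ hx) (W.smul_mem _ (W_I H hx))

theorem W_sq (H : WS' A z al W) {x : Fin g → ℂ} (hx : x ∈ W) :
    A.ext z (A.ext z x) = -(((al : ℂ) ^ 2) • x) := by
  have h1 := H.le hx
  have h2 : A.ext z (A.ext z x) + (al ^ 2) • x = 0 := h1
  rw [eq_neg_of_add_eq_zero_left h2]
  congr 1
  rw [← Complex.coe_smul]
  push_cast
  rfl

/-- the part with the eigenvalue `i be` -/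
def We (h : HQ A z al) (H : WS' A z al W) (be : ℝ) : Submodule ℂ (Fin g → ℂ) where
  carrier := {x | x ∈ W ∧ Eig A z be x}
  zero_mem' := ⟨W.zero_mem, by unfold Eig; rw [map_zero, smul_zero]⟩
  add_mem' := by
    rintro a b ⟨ha, ha'⟩ ⟨hb, hb'⟩
    refine ⟨W.add_mem ha hb, ?_⟩
    unfold Eig at *
    rw [map_add, ha', hb', smul_add]
  smul_mem' := by
    rintro c a ⟨ha, ha'⟩
    refine ⟨W_smul H ha c, ?_⟩
    unfold Eig at *
    rw [ext_smulC h.mem, ha', smul_comm]

theorem decomp (h : HQ A z al) (H : WS' A z al W) {x : Fin g → ℂ} (hx : x ∈ W) :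
    ∃ p q : Fin g → ℂ, p ∈ W ∧ Eig A z al p ∧ q ∈ W ∧ Eig A z (-al) q ∧ x = p + q := by
  have hal : (al : ℂ) ≠ 0 := by exact_mod_cast h.ne
  have hz : A.ext z x ∈ W := H.stabz x hx
  have hI : Complex.I * Complex.I = -1 := Complex.I_mul_I
  refine ⟨(1 / 2 : ℂ) • x - (Complex.I / (2 * al)) • A.ext z x,
    (1 / 2 : ℂ) • x + (Complex.I / (2 * al)) • A.ext z x,
    W.sub_mem (W_smul H hx _) (W_smul H hz _), ?_,
    W.add_mem (W_smul H hx _) (W_smul H hz _), ?_, by module⟩
  · unfold Eig
    rw [map_sub, ext_smulC h.mem, ext_smulC h.mem, W_sq H hx, smul_sub, smul_smul, smul_smul]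
    have e1 : (al : ℂ) * Complex.I * (Complex.I / (2 * al)) = -(1 / 2) := by
      field_simp
      linear_combination hI
    have e2 : (Complex.I / (2 * al)) • -((al : ℂ) ^ 2 • x) = -(((al : ℂ) * Complex.I * (1 / 2)) • x) := by
      rw [smul_neg, smul_smul]
      congr 2
      field_simp
    rw [e1, e2]
    module
  · unfold Eig
    rw [map_add, ext_smulC h.mem, ext_smulC h.mem, W_sq H hx, smul_add, smul_smul, smul_smul]
    push_cast
    have e1 : -(al : ℂ) * Complex.I * (Complex.I / (2 * al)) = 1 / 2 := by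
      field_simp
      linear_combination -hI
    have e2 : (Complex.I / (2 * al)) • -((al : ℂ) ^ 2 • x) = (-(al : ℂ) * Complex.I * (1 / 2)) • x := by
      rw [smul_neg, smul_smul, ← neg_smul]
      congr 1
      field_simp
    rw [e1, e2]
    module

theorem wn (h : HQ A z al) (H : WS' A z al W) :
    ∃ (N : ℕ) (sg : Fin N → ℝ) (φ : VN N →ₗ[ℝ] (Fin g → ℂ)), WN A z al N sg φ := by
  have hal : (al : ℂ) ≠ 0 := by exact_mod_cast h.ne
  obtain ⟨r, b, hb⟩ := exists_onb A.core (We h H al)
  obtain ⟨s, b', hb'⟩ := exists_onb A.core (We h H (-al))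
  let f : Fin (r + s) → (Fin g → ℂ) :=
    Fin.append (fun i => (b i : Fin g → ℂ)) (fun j => (b' j : Fin g → ℂ))
  have fl : ∀ i : Fin r, f (Fin.castAdd s i) = (b i : Fin g → ℂ) := fun i => Fin.append_left _ _ i
  have fr : ∀ j : Fin s, f (Fin.natAdd r j) = (b' j : Fin g → ℂ) := fun j => Fin.append_right _ _ j
  clear_value f
  have hbE : ∀ j, Eig A z al (b j : Fin g → ℂ) := fun j => (b j).2.2
  have hbW : ∀ j, (b j : Fin g → ℂ) ∈ W := fun j => (b j).2.1
  have hbE' : ∀ j, Eig A z (-al) (b' j : Fin g → ℂ) := fun j => (b' j).2.2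
  have hbW' : ∀ j, (b' j : Fin g → ℂ) ∈ W := fun j => (b' j).2.1
  have hne1 : ∀ (i : Fin r) (j : Fin s), Fin.castAdd s i ≠ Fin.natAdd r j := by
    intro i j hij
    have := congrArg Fin.val hij
    simp only [Fin.val_castAdd, Fin.val_natAdd] at this
    omega
  have hf : ∀ i j, A.core.inner (f i) (f j) = if i = j then (1 : ℂ) else 0 := by
    intro i j
    refine Fin.addCases (fun i => ?_) (fun i => ?_) i
    · refine Fin.addCases (fun j => ?_) (fun j => ?_) j
      · have h1 := hb i j
        rw [fl, fl]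
        simp only [Fin.castAdd_inj]
        exact h1
      · rw [if_neg (hne1 i j), fl, fr]
        exact ip_zero h (hbE i) (hbE' j)
    · refine Fin.addCases (fun j => ?_) (fun j => ?_) j
      · rw [if_neg (hne1 j i).symm, fl, fr]
        have h1 : star (ip A (b j : Fin g → ℂ) (b' i : Fin g → ℂ)) =
          ip A (b' i : Fin g → ℂ) (b j : Fin g → ℂ) := ip_star _ _
        rw [ip_zero h (hbE j) (hbE' i), star_zero] at h1
        exact h1.symm
      · have h1 := hb' i j
        rw [fr, fr]
        simp only [Fin.natAdd_inj]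
        exact h1
  have hin : ∀ x y : VN (r + s), ip A (ph f x) (ph f y) =
      ∑ i : Fin r, star (x (Fin.castAdd s i)) * y (Fin.castAdd s i) +
      ∑ j : Fin s, x (Fin.natAdd r j) * star (y (Fin.natAdd r j)) := by
    intro x y
    have h1 := ip_sum A.core f hf (cf x) (cf y)
    rw [ph_eq, ph_eq]
    refine Eq.trans h1 ?_
    rw [Fin.sum_univ_add]
    simp only [cf_l, cf_r, star_star]
  have hmem : ∀ x, ph f x ∈ W := by
    intro x
    rw [ph_apply]
    exact W.add_mem (W.sum_mem fun j _ => by rw [fl]; exact W_smul H (hbW j) _)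
      (W.sum_mem fun j _ => by rw [fr]; exact W_smul H (hbW' j) _)
  have hsurj : ∀ w ∈ W, ∃ x, ph f x = w := by
    intro w hw
    obtain ⟨p, q, hp, hp', hq, hq', rfl⟩ := decomp h H hw
    have hpm : p ∈ We h H al := ⟨hp, hp'⟩
    have hqm : q ∈ We h H (-al) := ⟨hq, hq'⟩
    refine ⟨Fin.append (fun i => b.repr ⟨p, hpm⟩ i) (fun j => star (b'.repr ⟨q, hqm⟩ j)), ?_⟩
    rw [ph_apply]
    congr 1
    · have h1 := b.sum_repr ⟨p, hpm⟩
      have h2 := congrArg (Subtype.val : We h H al → (Fin g → ℂ)) h1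
      rw [AddSubmonoidClass.coe_finsetSum] at h2
      refine Eq.trans (Finset.sum_congr rfl fun j _ => ?_) h2
      rw [Fin.append_left, fl]
      rfl
    · have h1 := b'.sum_repr ⟨q, hqm⟩
      have h2 := congrArg (Subtype.val : We h H (-al) → (Fin g → ℂ)) h1
      rw [AddSubmonoidClass.coe_finsetSum] at h2
      refine Eq.trans (Finset.sum_congr rfl fun j _ => ?_) h2
      rw [Fin.append_right, star_star, fr]
      rfl
  have hself : ∀ x : VN (r + s), ph f x = 0 → x = 0 := by
    intro x hx
    have h1 := hin x x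
    rw [hx] at h1
    have h2 : ip A (0 : Fin g → ℂ) 0 = 0 := by
      have := ip_smul_left (A := A) 0 0 0
      rwa [zero_smul, star_zero, zero_mul] at this
    rw [h2] at h1
    have h3 : (0 : ℝ) = ∑ i : Fin r, Complex.normSq (x (Fin.castAdd s i)) +
        ∑ j : Fin s, Complex.normSq (x (Fin.natAdd r j)) := by
      have h4 : ((0 : ℝ) : ℂ) = ((∑ i : Fin r, Complex.normSq (x (Fin.castAdd s i)) +
          ∑ j : Fin s, Complex.normSq (x (Fin.natAdd r j)) : ℝ) : ℂ) := by
        push_cast
        rw [h1]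
        congr 1
        · refine Finset.sum_congr rfl fun j _ => ?_
          rw [Complex.normSq_eq_conj_mul_self]
          rfl
        · refine Finset.sum_congr rfl fun j _ => ?_
          rw [Complex.normSq_eq_conj_mul_self, mul_comm]
          rfl
      exact_mod_cast h4
    have h4 : 0 ≤ ∑ j : Fin s, Complex.normSq (x (Fin.natAdd r j)) :=
      Finset.sum_nonneg fun j _ => Complex.normSq_nonneg _
    have h5 : 0 ≤ ∑ i : Fin r, Complex.normSq (x (Fin.castAdd s i)) :=
      Finset.sum_nonneg fun j _ => Complex.normSq_nonneg _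
    have h6 : ∑ j : Fin s, Complex.normSq (x (Fin.natAdd r j)) = 0 := by linarith
    have h7 : ∑ i : Fin r, Complex.normSq (x (Fin.castAdd s i)) = 0 := by linarith
    rw [Finset.sum_eq_zero_iff_of_nonneg (fun j _ => Complex.normSq_nonneg _)] at h6 h7
    funext i
    refine Fin.addCases (fun j => ?_) (fun j => ?_) i
    · exact Complex.normSq_eq_zero.1 (h7 j (Finset.mem_univ j))
    · exact Complex.normSq_eq_zero.1 (h6 j (Finset.mem_univ j))
  have hinj : Function.Injective (ph f) := by
    intro x y hxy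
    have h1 := hself (x - y) (by rw [map_sub, hxy, sub_self])
    exact sub_eq_zero.1 h1
  have hmulI : ∀ x, ph f (Complex.I • x) = al⁻¹ • A.ext z (ph f x) := by
    intro x
    rw [ph_apply, ph_apply, map_add, map_sum, map_sum, smul_add, Finset.smul_sum, Finset.smul_sum]
    congr 1
    · refine Finset.sum_congr rfl fun j _ => ?_
      rw [ext_smulC h.mem, fl, hbE j, Pi.smul_apply, smul_eq_mul, ← Complex.coe_smul, smul_smul,
        smul_smul]
      congr 1
      push_cast
      field_simp
    · refine Finset.sum_congr rfl fun j _ => ?_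
      rw [ext_smulC h.mem, fr, hbE' j, ← Complex.coe_smul, smul_smul, smul_smul, Pi.smul_apply,
        smul_eq_mul, star_mul']
      congr 1
      have a2 : star Complex.I = -Complex.I := Complex.conj_I
      rw [a2]
      push_cast
      field_simp
  refine ⟨r + s, sgn r s, ph f, ⟨?_, ?_, hinj, hmulI, ?_, ?_, ?_, ?_, ?_⟩⟩
  · intro i
    refine Fin.addCases (fun j => ?_) (fun j => ?_) i
    · left; exact sgn_l r s j
    · right; exact sgn_r r s j
  · by_contra hcon
    apply H.ne
    rw [eq_bot_iff]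
    intro w hw
    obtain ⟨x, rfl⟩ := hsurj w hw
    have hr : r = 0 := by omega
    have hs : s = 0 := by omega
    subst hr hs
    rw [ph_apply, Fin.sum_univ_zero, Fin.sum_univ_zero, add_zero]
    exact Submodule.zero_mem _
  · intro x
    rw [ph_apply, ph_apply, smul_add, Finset.smul_sum, Finset.smul_sum]
    congr 1
    · refine Finset.sum_congr rfl fun j _ => ?_
      rw [sgn_l, smul_smul, Complex.ofReal_one, one_mul]
    · refine Finset.sum_congr rfl fun j _ => ?_
      rw [sgn_r, smul_smul, Complex.ofReal_neg, Complex.ofReal_one, neg_one_mul, star_neg, star_mul']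
      have a2 : star Complex.I = -Complex.I := Complex.conj_I
      rw [a2]
      congr 1
      ring
  · intro x y
    rw [← ip_im, hin]
    unfold Pool.Agent.N208.BT.hs
    rw [Fin.sum_univ_add, Complex.add_im, Complex.add_im, neg_add, Complex.im_sum, Complex.im_sum,
      Complex.im_sum, Complex.im_sum, ← Finset.sum_neg_distrib, ← Finset.sum_neg_distrib]
    congr 1
    · refine Finset.sum_congr rfl fun j _ => ?_
      rw [sgn_l, Complex.ofReal_one, one_mul]
      have h2 : star (x (Fin.castAdd s j)) * y (Fin.castAdd s j) =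
          star (x (Fin.castAdd s j) * star (y (Fin.castAdd s j))) := by
        rw [star_mul', star_star]
      rw [h2]
      have h3 : (star (x (Fin.castAdd s j) * star (y (Fin.castAdd s j)))).im =
        -(x (Fin.castAdd s j) * star (y (Fin.castAdd s j))).im := Complex.conj_im _
      rw [h3, neg_neg]
    · refine Finset.sum_congr rfl fun j _ => ?_
      rw [sgn_r, Complex.ofReal_neg, Complex.ofReal_one, neg_one_mul, neg_mul, Complex.neg_im]
  · intro X hX x
    obtain ⟨y, hy⟩ := hsurj _ (H.stab X hX _ (hmem x))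
    exact ⟨y, hy.symm⟩
  · intro U hU
    have hle : (U.restrictScalars ℝ).map (ph f) ≤ W := by
      rintro _ ⟨x, _, rfl⟩
      exact hmem x
    rcases H.simple ((U.restrictScalars ℝ).map (ph f)) hle (by
        rintro X hX _ ⟨x, hx, rfl⟩
        obtain ⟨y, hy⟩ := hsurj _ (H.stab X hX _ (hmem x))
        exact ⟨y, hU X hX x hx y hy.symm, hy⟩) (by
        rintro _ ⟨x, hx, rfl⟩
        refine ⟨(al : ℂ) • (Complex.I • x), U.smul_mem _ (U.smul_mem _ hx), ?_⟩
        rw [Complex.coe_smul, map_smul, hmulI, smul_smul, mul_inv_cancel₀ h.ne, one_smul]) with h1 | h1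
    · left
      rw [eq_bot_iff]
      intro x hx
      have h2 : ph f x ∈ (U.restrictScalars ℝ).map (ph f) := ⟨x, hx, rfl⟩
      rw [h1, Submodule.mem_bot] at h2
      exact (Submodule.mem_bot ℂ).2 (hself x h2)
    · right
      rw [eq_top_iff]
      intro x _
      have h2 : ph f x ∈ (U.restrictScalars ℝ).map (ph f) := by
        rw [h1]
        exact hmem x
      obtain ⟨y, hy, hxy⟩ := h2
      rw [← hinj hxy]
      exact hy
  · intro y hy hx
    refine H.gen y hy fun w hw => ?_
    obtain ⟨x, rfl⟩ := hsurj w hw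
    exact hx x

end

/-- **BG/WB.** -/
theorem main : G_WB := fun _ _ _ _ h _ H => wn h H

end Pool.Agent.N455.BGWB
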