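import Pool.Agent.N904.AP.Basic

/-!
# Project AP: consequences for the packing (task Pack of `Pool.Agent.N904.AP.Stm`)
-/

set_option autoImplicit false

open Set Filter Topology

namespace Pool.Agent.N455.AP

open Pool.Agent.N904.AP

/-- the conjugate matrix -/
noncomputable def bar (g : GLC) : GLC := g.map (starRingEnd ℂ)

lemma cj_smul (g : GLC) (z : OnePoint ℂ) : cj (g • z) = bar g • cj z :=
  OnePoint.map_smul (starRingEnd ℂ) g z

lemma cj_cj (z : OnePoint ℂ) : cj (cj z) = z := by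
  unfold cj
  induction z using OnePoint.rec with
  | infty => simp
  | coe z => simp

/-- `z ↦ g • conj z` -/
noncomputable def Ga (g : GLC) (z : OnePoint ℂ) : OnePoint ℂ := g • cj z

lemma Ga_image (g : GLC) (S : Set (OnePoint ℂ)) : Ga g '' S = img g (cj '' S) := by
  unfold img Ga
  rw [image_image]

lemma Ga_Ga (g h : GLC) (z : OnePoint ℂ) : Ga g (Ga h z) = (g * bar h) • z := by
  unfold Ga
  rw [cj_smul, cj_cj, mul_smul]

noncomputable def m1 : GLC := mk2 (-1) 0 0 1 (by norm_num)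
noncomputable def m2 : GLC := mk2 1 Complex.I 0 1 (by norm_num)
noncomputable def m3 : GLC := mk2 0 1 1 0 (by norm_num)
noncomputable def m4 : GLC := mk2 (-1) 1 0 1 (by norm_num)

lemma bar_mk2 (a b c d : ℂ) (h : a * d - b * c ≠ 0) (i j : Fin 2) :
    bar (mk2 a b c d h) i j = !![(starRingEnd ℂ) a, (starRingEnd ℂ) b; (starRingEnd ℂ) c,
      (starRingEnd ℂ) d] i j := by
  fin_cases i <;> fin_cases j <;> rfl

lemma mk2_apply (a b c d : ℂ) (h : a * d - b * c ≠ 0) (i j : Fin 2) :
    mk2 a b c d h i j = !![a, b; c, d] i j := rfl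

lemma mul_bar (a b c d a' b' c' d' : ℂ) (h : a * d - b * c ≠ 0) (h' : a' * d' - b' * c' ≠ 0)
    (k : GLC)
    (h00 : k 0 0 = a * (starRingEnd ℂ) a' + b * (starRingEnd ℂ) c')
    (h01 : k 0 1 = a * (starRingEnd ℂ) b' + b * (starRingEnd ℂ) d')
    (h10 : k 1 0 = c * (starRingEnd ℂ) a' + d * (starRingEnd ℂ) c')
    (h11 : k 1 1 = c * (starRingEnd ℂ) b' + d * (starRingEnd ℂ) d') :
    mk2 a b c d h * bar (mk2 a' b' c' d' h') = k := by
  apply Units.ext
  ext i j
  rw [Units.val_mul, Matrix.mul_apply, Fin.sum_univ_two, bar_mk2, bar_mk2, mk2_apply, mk2_apply]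
  fin_cases i <;> fin_cases j
  · exact h00.symm
  · exact h01.symm
  · exact h10.symm
  · exact h11.symm

lemma m1_inv : m1 * bar m1 = 1 := by
  apply mul_bar <;> simp
lemma m2_inv : m2 * bar m2 = 1 := by
  apply mul_bar <;> simp
lemma m3_inv : m3 * bar m3 = 1 := by
  apply mul_bar <;> simp
lemma m4_inv : m4 * bar m4 = 1 := by
  apply mul_bar <;> simp

lemma toR_rf (i : Fin 4) (x : Fin 4 → ℤ) : toR (rf i x) = rf i (toR x) := by
  funext j
  unfold toR rf
  split_ifs <;> push_cast <;> ring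

lemma toR_comp (x : Fin 4 → ℤ) (π : Equiv.Perm (Fin 4)) : toR (x ∘ π) = toR x ∘ π := rfl

lemma toR_bas (k : Fin 4) : toR (bas k) = bas k := by
  funext j
  unfold toR bas
  by_cases h : j = k
  · subst h; simp
  · simp [h]

lemma Sym.comp {Φ Ψ : OnePoint ℂ → OnePoint ℂ} (h1 : Sym Φ) (h2 : Sym Ψ) : Sym (Φ ∘ Ψ) := by
  intro S
  rw [image_comp]
  exact (h2 S).trans (h1 _)

lemma mem_PP (h4 : StPP) (S : Set (OnePoint ℂ)) : S ∈ PP ↔ ∃ x, Good x ∧ S = circ (toR x) := by
  rw [show PP = _ from h4]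
  rfl

lemma sym_of (h4 : StPP) (g : GLC) (hinv : g * bar g = 1) (T : (Fin 4 → ℤ) → (Fin 4 → ℤ))
    (hT : ∀ x, Good x → Good (T x)) (him : ∀ x, Ga g '' circ (toR x) = circ (toR (T x))) :
    Sym (Ga g) := by
  have h1 : ∀ S, S ∈ PP → Ga g '' S ∈ PP := by
    intro S hS
    obtain ⟨x, hx, rfl⟩ := (mem_PP h4 S).1 hS
    exact (mem_PP h4 _).2 ⟨T x, hT x hx, him x⟩
  intro S
  refine ⟨h1 S, fun hS => ?_⟩
  have h2 := h1 _ hS
  rw [image_image] at h2
  have h3 : (fun z => Ga g (Ga g z)) '' S = S := by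
    have : (fun z => Ga g (Ga g z)) = id := by
      funext z
      rw [Ga_Ga, hinv, one_smul]
      rfl
    rw [this, image_id]
  rwa [h3] at h2

section
variable (h1 : StEquiv) (h2 : StGood) (h4 : StPP)
include h1 h2 h4

lemma sym1 : Sym (Ga m1) := by
  refine sym_of h4 m1 m1_inv (rf 3) (fun x hx => h2.2.1 x 3 hx) (fun x => ?_)
  rw [Ga_image, toR_rf]
  exact h1.1 (toR x)

lemma sym2 : Sym (Ga m2) := by
  refine sym_of h4 m2 m2_inv (fun x => x ∘ Equiv.swap 0 1) (fun x hx => h2.2.2.1 x _ hx) (fun x => ?_)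
  rw [Ga_image, toR_comp]
  exact h1.2.1 (toR x)

lemma sym3 : Sym (Ga m3) := by
  refine sym_of h4 m3 m3_inv (fun x => x ∘ Equiv.swap 1 2) (fun x hx => h2.2.2.1 x _ hx) (fun x => ?_)
  rw [Ga_image, toR_comp]
  exact h1.2.2.1 (toR x)

lemma sym4 : Sym (Ga m4) := by
  refine sym_of h4 m4 m4_inv (fun x => x ∘ Equiv.swap 2 3) (fun x hx => h2.2.2.1 x _ hx) (fun x => ?_)
  rw [Ga_image, toR_comp]
  exact h1.2.2.2 (toR x)

end

/-- symmetry maps -/
def GG (Ψ : OnePoint ℂ → OnePoint ℂ) : Prop :=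
  Sym Ψ ∧ ∃ g : GLC, (∀ z, Ψ z = g • z) ∨ (∀ z, Ψ z = Ga g z)

lemma GG.comp {Φ Ψ : OnePoint ℂ → OnePoint ℂ} (h1 : GG Φ) (h2 : GG Ψ) : GG (Φ ∘ Ψ) := by
  refine ⟨Sym.comp h1.1 h2.1, ?_⟩
  obtain ⟨g, hg⟩ := h1.2
  obtain ⟨h, hh⟩ := h2.2
  rcases hg with hg | hg <;> rcases hh with hh | hh
  · exact ⟨g * h, Or.inl fun z => by rw [Function.comp_apply, hg, hh, mul_smul]⟩
  · exact ⟨g * h, Or.inr fun z => by rw [Function.comp_apply, hg, hh]; unfold Ga; rw [mul_smul]⟩
  · exact ⟨g * bar h, Or.inr fun z => by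
      rw [Function.comp_apply, hg, hh]; unfold Ga; rw [cj_smul, mul_smul]⟩
  · exact ⟨g * bar h, Or.inl fun z => by rw [Function.comp_apply, hg, hh, Ga_Ga]⟩

lemma GG_id : GG id := ⟨fun S => by rw [image_id], 1, Or.inl fun z => by rw [one_smul]; rfl⟩

section
variable (h1 : StEquiv) (h2 : StGood) (h4 : StPP)
include h1 h2 h4

lemma perm_map (π : Equiv.Perm (Fin 4)) :
    ∃ Ψ, GG Ψ ∧ ∀ x : Fin 4 → ℝ, Ψ '' circ x = circ (x ∘ π) := by
  have hπ : π ∈ Submonoid.closure (Set.range fun i : Fin 3 => Equiv.swap i.castSucc i.succ) := by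
    rw [Equiv.Perm.mclosure_swap_castSucc_succ]
    trivial
  induction hπ using Submonoid.closure_induction with
  | mem σ hσ =>
    obtain ⟨i, rfl⟩ := hσ
    fin_cases i
    · exact ⟨Ga m2, ⟨sym2 h1 h2 h4, m2, Or.inr fun _ => rfl⟩, fun x => by
        rw [Ga_image]; exact h1.2.1 x⟩
    · exact ⟨Ga m3, ⟨sym3 h1 h2 h4, m3, Or.inr fun _ => rfl⟩, fun x => by
        rw [Ga_image]; exact h1.2.2.1 x⟩
    · exact ⟨Ga m4, ⟨sym4 h1 h2 h4, m4, Or.inr fun _ => rfl⟩, fun x => by
        rw [Ga_image]; exact h1.2.2.2 x⟩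
  | one => exact ⟨id, GG_id, fun x => by rw [image_id]; rfl⟩
  | mul σ τ _ _ hσ hτ =>
    obtain ⟨Ψ1, hG1, hΨ1⟩ := hσ
    obtain ⟨Ψ2, hG2, hΨ2⟩ := hτ
    exact ⟨Ψ2 ∘ Ψ1, hG2.comp hG1, fun x => by rw [image_comp, hΨ1, hΨ2]; rfl⟩

lemma rf_map (i : Fin 4) : ∃ Ψ, GG Ψ ∧ ∀ x : Fin 4 → ℝ, Ψ '' circ x = circ (rf i x) := by
  obtain ⟨Ψ, hG, hΨ⟩ := perm_map h1 h2 h4 (Equiv.swap 3 i)
  refine ⟨Ψ ∘ (Ga m1 ∘ Ψ), hG.comp (GG.comp ⟨sym1 h1 h2 h4, m1, Or.inr fun _ => rfl⟩ hG),
    fun x => ?_⟩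
  rw [image_comp, image_comp, hΨ]
  have h5 : Ga m1 '' circ (x ∘ Equiv.swap 3 i) = circ (rf 3 (x ∘ Equiv.swap 3 i)) := by
    rw [Ga_image]; exact h1.1 _
  rw [h5, hΨ]
  congr 1
  funext j
  simp only [rf, Function.comp_apply, Equiv.swap_apply_left, Equiv.swap_apply_self]
  by_cases hj : j = i
  · subst hj
    simp
  · have : Equiv.swap 3 i j ≠ 3 := by
      intro h
      apply hj
      have := congrArg (Equiv.swap 3 i) h
      rwa [Equiv.swap_apply_self, Equiv.swap_apply_left] at this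
    rw [if_neg this, if_neg hj]

lemma good_map (h3 : StBase) (x : Fin 4 → ℤ) (hx : Good x) :
    ∃ Ψ, GG Ψ ∧ Ψ '' RR = circ (toR x) := by
  induction hx with
  | base k =>
    obtain ⟨Ψ, hG, hΨ⟩ := perm_map h1 h2 h4 (Equiv.swap 0 k)
    refine ⟨Ψ, hG, ?_⟩
    rw [← h3.1]
    show Ψ '' circ (bas 0) = _
    rw [hΨ, toR_bas]
    congr 1
    funext j
    simp only [bas, Function.comp_apply, Pi.single_apply]
    by_cases hj : j = k
    · subst hj; simp
    · have : Equiv.swap 0 k j ≠ 0 := by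
        intro h
        apply hj
        have := congrArg (Equiv.swap 0 k) h
        rwa [Equiv.swap_apply_self, Equiv.swap_apply_left] at this
      rw [if_neg this, if_neg hj]
  | up i x _ _ ih =>
    obtain ⟨Ψ, hG, hΨ⟩ := ih
    obtain ⟨Φ, hG', hΦ⟩ := rf_map h1 h2 h4 i
    exact ⟨Φ ∘ Ψ, hG'.comp hG, by rw [image_comp, hΨ, hΦ, toR_rf]⟩

end

lemma eqn_pos (h2 : StGood) (x : Fin 4 → ℤ) (hx : Good x) (z : ℂ) (hz : z.im < 0) :
    eqn (toR x) z ≠ 0 := by
  have hQ := h2.1 x hx
  have h0 := h2.2.2.2.1 x hx 0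
  have h1 := h2.2.2.2.1 x hx 1
  have hc := h2.2.2.2.2.1 x hx
  have key : ∀ y : Fin 4 → ℤ, y = bas 0 → eqn (toR y) z ≠ 0 := by
    rintro y rfl
    have : eqn (toR (bas 0)) z = z.im := by
      simp [eqn, toR, bas]
    rw [this]
    exact hz.ne
  have key1 : ∀ y : Fin 4 → ℤ, y = bas 1 → eqn (toR y) z ≠ 0 := by
    rintro y rfl
    have : eqn (toR (bas 1)) z = 1 - z.im := by
      simp [eqn, toR, bas]
      ring
    rw [this]
    linarith
  rcases h0 with h0 | h0
  · exact key x h0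
  rcases h1 with h1 | h1
  · exact key1 x h1
  unfold QQ BB at hQ
  unfold tt at h0 h1
  simp only [Fin.sum_univ_four] at hQ h0 h1
  set a := x 0
  set b := x 1
  set c := x 2
  set d := x 3
  have hp : b * c + b * d + c * d ≥ 0 := by nlinarith
  have hE : eqn (toR x) z = ((c : ℝ) + d) * (z.re ^ 2 + z.im ^ 2) - 2 * d * z.re -
    ((b : ℝ) + c + d - a) * z.im + (b + d) := rfl
  rcases hc.eq_or_lt with hc0 | hc0
  · -- straight lines
    exfalso
    have hd : d = -c := by linarith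
    rw [hd] at hp hQ h0 h1
    have hc2 : c = 0 := by nlinarith [sq_nonneg c]
    rw [hc2] at hQ h0 h1
    nlinarith
  · have hQr : (b : ℝ) * c + b * d + c * d ≥ 0 := by exact_mod_cast hp
    have h0r : (1 : ℝ) ≤ b + c + d - a := by
      have : (1 : ℤ) ≤ b + c + d - a := by linarith
      exact_mod_cast this
    have hcr : (0 : ℝ) < c + d := by exact_mod_cast hc0
    have h5 : 0 < ((c : ℝ) + d) * eqn (toR x) z := by
      rw [hE]
      have e1 : ((c : ℝ) + d) * (((c : ℝ) + d) * (z.re ^ 2 + z.im ^ 2) - 2 * d * z.re -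
        ((b : ℝ) + c + d - a) * z.im + (b + d)) = (((c : ℝ) + d) * z.re - d) ^ 2 +
        (b * c + b * d + c * d) + (((c : ℝ) + d) * z.im) ^ 2 +
          ((c : ℝ) + d) * (((b : ℝ) + c + d - a) * (-z.im)) := by ring
      rw [e1]
      have e2 : 0 < ((c : ℝ) + d) * (((b : ℝ) + c + d - a) * (-z.im)) :=
        mul_pos hcr (mul_pos (by linarith) (by linarith))
      positivity
    intro h
    rw [h, mul_zero] at h5
    exact lt_irrefl _ h5

theorem pack_of (h1 : StEquiv) (h2 : StGood) (h3 : StBase) (h4 : StPP) : StPack := by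
  refine ⟨?_, ?_, ?_⟩
  · intro z hz hmem
    set V : Set (OnePoint ℂ) := OnePoint.some '' {w : ℂ | w.im < 0} with hV
    have hVo : IsOpen V := by
      rw [OnePoint.isOpen_image_coe]
      exact isOpen_lt Complex.continuous_im continuous_const
    have hzV : (z : OnePoint ℂ) ∈ V := ⟨z, hz, rfl⟩
    obtain ⟨p, hpV, hp⟩ := mem_closure_iff.1 hmem V hVo hzV
    obtain ⟨w, hw, rfl⟩ := hpV
    obtain ⟨S, hS, hpS⟩ := hp
    obtain ⟨x, hx, rfl⟩ := (mem_PP h4 S).1 hS
    rcases hpS with ⟨h, _⟩ | ⟨w', h, he⟩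
    · exact OnePoint.coe_ne_infty w h
    · have : w = w' := OnePoint.coe_injective h
      subst this
      exact eqn_pos h2 x hx w hw he
  · intro T hT
    obtain ⟨x, hx, rfl⟩ := (mem_PP h4 T).1 hT
    obtain ⟨Ψ, hG, hΨ⟩ := good_map h1 h2 h4 h3 x hx
    obtain ⟨hs, g, hg | hg⟩ := hG
    · refine ⟨g, ?_, ?_⟩
      · rw [← hΨ]
        exact image_congr fun z _ => hg z
      · have : (fun z : OnePoint ℂ => g • z) = Ψ := by funext z; exact (hg z).symm
        rw [this]
        exact hs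
    · have hs1 := sym1 h1 h2 h4
      have e1 : (fun z : OnePoint ℂ => (g * bar m1) • z) = Ψ ∘ Ga m1 := by
        funext z
        rw [Function.comp_apply, hg, Ga_Ga]
      refine ⟨g * bar m1, ?_, ?_⟩
      · have e2 : Ga m1 '' RR = RR := by
          rw [← h3.1]
          show Ga m1 '' circ (bas 0) = circ (bas 0)
          rw [Ga_image]
          refine (h1.1 _).trans ?_
          congr 1
          funext j
          simp only [rf, bas, Pi.single_apply]
          fin_cases j <;> simp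
        rw [← hΨ]
        unfold img
        rw [e1, image_comp, e2]
      · rw [e1]
        exact Sym.comp hs hs1
  · -- the group
    let ι : Matrix.SpecialLinearGroup (Fin 2) ℤ →* GLC :=
      Matrix.SpecialLinearGroup.toGL.comp (Matrix.SpecialLinearGroup.map (Int.castRingHom ℂ))
    have hcomp : ∀ g h : GLC, Sym (fun z => g • z) → Sym (fun z => h • z) →
        Sym (fun z => (g * h) • z) := by
      intro g h hg hh
      have : (fun z : OnePoint ℂ => (g * h) • z) = (fun z => g • z) ∘ (fun z => h • z) := by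
        funext z
        rw [Function.comp_apply, mul_smul]
      rw [this]
      exact Sym.comp hg hh
    have main : ∀ A : Matrix.SpecialLinearGroup (Fin 2) ℤ, Sym (fun z => ι A • z) := by
      intro A
      have hA : A ∈ Subgroup.closure {ModularGroup.S, ModularGroup.T} := by
        rw [SpecialLinearGroup.SL2Z_generators]
        trivial
      induction hA using Subgroup.closure_induction with
      | mem B hB =>
        rcases hB with rfl | hB
        · have e : (fun z : OnePoint ℂ => ι ModularGroup.S • z) = Ga m1 ∘ Ga m3 := by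
            funext z
            rw [Function.comp_apply, Ga_Ga]
            congr 1
            symm
            apply mul_bar <;> simp [ι, ModularGroup.S]
          rw [e]
          exact Sym.comp (sym1 h1 h2 h4) (sym3 h1 h2 h4)
        · rw [mem_singleton_iff] at hB
          subst hB
          have e : (fun z : OnePoint ℂ => ι ModularGroup.T • z) = Ga m4 ∘ Ga m1 := by
            funext z
            rw [Function.comp_apply, Ga_Ga]
            congr 1
            symm
            apply mul_bar <;> simp [ι, ModularGroup.T]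
          rw [e]
          exact Sym.comp (sym4 h1 h2 h4) (sym1 h1 h2 h4)
      | one =>
        intro S
        have : (fun z : OnePoint ℂ => ι 1 • z) = id := by
          funext z
          rw [map_one, one_smul]
          rfl
        rw [this, image_id]
      | mul B C _ _ hB hC =>
        have := hcomp (ι B) (ι C) hB hC
        rwa [← map_mul] at this
      | inv B _ hB =>
        intro S
        have h5 := hB ((fun z => ι B⁻¹ • z) '' S)
        rw [image_image] at h5
        have h6 : (fun z : OnePoint ℂ => ι B • ι B⁻¹ • z) '' S = S := by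
          have : (fun z : OnePoint ℂ => ι B • ι B⁻¹ • z) = id := by
            funext z
            rw [← mul_smul, ← map_mul, mul_inv_cancel, map_one, one_smul]
            rfl
          rw [this, image_id]
        rw [h6] at h5
        exact h5.symm
    exact main

end Pool.Agent.N455.AP
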