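import Pool.Agent.N81.Cay.Stm

namespace Pool.Agent.N455.CayC

open Pool.Agent.R759.HC Pool.Agent.N81.Cay

universe u

/-! ### ext -/

section ext

variable {G : Type u} [Group G]

noncomputable def rep (H : Subgroup G) (x : G) : G := (x : G ⧸ H).out

theorem rep_mem (H : Subgroup G) (x : G) : (rep H x)⁻¹ * x ∈ H :=
  QuotientGroup.eq.1 (QuotientGroup.out_eq' (x : G ⧸ H))

theorem rep_eq {H : Subgroup G} {x y : G} (h : x⁻¹ * y ∈ H) : rep H x = rep H y := by
  unfold rep
  rw [QuotientGroup.eq.2 h]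

theorem rep_mul {H : Subgroup G} {x h : G} (hh : h ∈ H) : rep H (rep H x * h) = rep H x := by
  symm
  apply rep_eq
  have h1 : x⁻¹ * (rep H x * h) = ((rep H x)⁻¹ * x)⁻¹ * h := by group
  rw [h1]
  exact H.mul_mem (H.inv_mem (rep_mem H x)) hh

theorem inv_maps {A : Set G} {H : Subgroup G} {τ : Equiv.Perm G} (h : CycOn A (H : Set G) τ)
    {x : G} (hx : x ∈ H) : τ⁻¹ x ∈ H := by
  by_contra hn
  have h1 := h.fix (τ⁻¹ x) hn
  rw [pinv1] at h1
  rw [← h1] at hn
  exact hn hx

theorem zpow_maps {A : Set G} {H : Subgroup G} {τ : Equiv.Perm G} (h : CycOn A (H : Set G) τ)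
    (k : ℤ) {x : G} (hx : x ∈ H) : (τ ^ k) x ∈ H := by
  induction k with
  | zero => simpa using hx
  | succ i ih =>
    rw [add_comm, zpow_add, zpow_one, Equiv.Perm.mul_apply]
    exact h.maps _ ih
  | pred i ih =>
    rw [sub_eq_add_neg, add_comm, zpow_add, zpow_neg_one, Equiv.Perm.mul_apply]
    exact inv_maps h ih

noncomputable def extP {A : Set G} {H : Subgroup G} {τ : Equiv.Perm G}
    (h : CycOn A (H : Set G) τ) : Equiv.Perm G where
  toFun x := rep H x * τ ((rep H x)⁻¹ * x)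
  invFun x := rep H x * τ⁻¹ ((rep H x)⁻¹ * x)
  left_inv x := by
    have h1 : τ ((rep H x)⁻¹ * x) ∈ H := h.maps _ (rep_mem H x)
    simp only
    rw [rep_mul h1]
    simp
  right_inv x := by
    have h1 : τ⁻¹ ((rep H x)⁻¹ * x) ∈ H := inv_maps h (rep_mem H x)
    simp only
    rw [rep_mul h1]
    simp

theorem extP_apply {A : Set G} {H : Subgroup G} {τ : Equiv.Perm G}
    (h : CycOn A (H : Set G) τ) (x : G) : extP h x = rep H x * τ ((rep H x)⁻¹ * x) := rfl

theorem extP_mul {A : Set G} {H : Subgroup G} {τ : Equiv.Perm G}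
    (h : CycOn A (H : Set G) τ) (x : G) {a : G} (ha : a ∈ H) :
    extP h (rep H x * a) = rep H x * τ a := by
  rw [extP_apply, rep_mul ha, inv_mul_cancel_left]

theorem extP_zpow {A : Set G} {H : Subgroup G} {τ : Equiv.Perm G}
    (h : CycOn A (H : Set G) τ) (x : G) {a : G} (ha : a ∈ H) (k : ℤ) :
    ((extP h) ^ k) (rep H x * a) = rep H x * (τ ^ k) a := by
  induction k with
  | zero => simp
  | succ i ih =>
    rw [add_comm, zpow_add, zpow_one, Equiv.Perm.mul_apply, ih, extP_mul h x (zpow_maps h _ ha),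
      zpow_add, zpow_one, Equiv.Perm.mul_apply]
  | pred i ih =>
    rw [sub_eq_add_neg, add_comm, zpow_add, zpow_neg_one, Equiv.Perm.mul_apply, ih,
      zpow_add, zpow_neg_one, Equiv.Perm.mul_apply, Equiv.Perm.inv_eq_iff_eq,
      extP_mul h x (inv_maps h (zpow_maps h _ ha)), pinv1]

theorem ext : S_ext.{u} := by
  intro G _ _ A hA H τ h
  refine ⟨extP h, ?_, ?_, ?_⟩
  · intro x
    have h1 := h.step _ (rep_mem H x)
    rw [extP_apply]
    have h2 : x⁻¹ * (rep H x * τ ((rep H x)⁻¹ * x)) =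
        ((rep H x)⁻¹ * x)⁻¹ * τ ((rep H x)⁻¹ * x) := by group
    rw [h2]
    exact h1
  · intro x y
    constructor
    · rintro ⟨k, hk⟩
      have h1 := extP_zpow h x (rep_mem H x) k
      rw [mul_inv_cancel_left, hk] at h1
      rw [h1]
      have h2 : x⁻¹ * (rep H x * (τ ^ k) ((rep H x)⁻¹ * x)) =
        ((rep H x)⁻¹ * x)⁻¹ * (τ ^ k) ((rep H x)⁻¹ * x) := by group
      rw [h2]
      exact H.mul_mem (H.inv_mem (rep_mem H x)) (zpow_maps h _ (rep_mem H x))
    · intro hxy
      have hr := rep_eq hxy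
      obtain ⟨k, hk⟩ := h.cyc _ (rep_mem H x) _ (rep_mem H y)
      refine ⟨k, ?_⟩
      have h1 := extP_zpow h x (rep_mem H x) k
      rw [mul_inv_cancel_left, hk, hr, mul_inv_cancel_left] at h1
      exact h1
  · intro s hs x
    have hxs : ((rep H x)⁻¹ * x) * s ∈ H := by
      rcases hs _ (rep_mem H x) with h1 | h1
      · rw [← h1]
        exact h.maps _ (rep_mem H x)
      · by_contra hn
        have h2 := h.fix _ hn
        rw [h2] at h1
        rw [h1] at hn
        exact hn (rep_mem H x)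
    have hr : rep H (x * s) = rep H x := by
      have h3 : x * s = rep H x * ((rep H x)⁻¹ * x * s) := by group
      conv_lhs => rw [h3]
      exact rep_mul hxs
    rcases hs _ (rep_mem H x) with h1 | h1
    · left
      rw [extP_apply, h1]
      group
    · right
      rw [extP_apply, hr, ← mul_assoc, h1]
      group

end ext

/-! ### prism -/

section prism

variable {G : Type u} [Group G]

theorem orb {A : Set G} {H : Subgroup G} {τ : Equiv.Perm G} (h : CycOn A (H : Set G) τ) :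
    MulAction.orbit (Subgroup.zpowers τ) (1 : G) = (H : Set G) := by
  ext y
  constructor
  · rintro ⟨⟨_, k, rfl⟩, rfl⟩
    exact zpow_maps h k H.one_mem
  · intro hy
    obtain ⟨k, hk⟩ := h.cyc 1 H.one_mem y hy
    exact ⟨⟨τ ^ k, k, rfl⟩, hk⟩

theorem parity [Finite G] {A : Set G} {H : Subgroup G} {τ : Equiv.Perm G}
    (h : CycOn A (H : Set G) τ) (he : Even (Nat.card H)) (j k : ℤ)
    (hjk : (τ ^ j) (1 : G) = (τ ^ k) 1) : (j : ZMod 2) = k := by
  classical
  have : Fintype G := Fintype.ofFinite G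
  have h1 : (τ ^ (j - k)) • (1 : G) = 1 := by
    rw [sub_eq_add_neg, add_comm, zpow_add, Equiv.Perm.smul_def, Equiv.Perm.mul_apply, hjk,
      ← Equiv.Perm.mul_apply, ← zpow_add, neg_add_cancel]
    simp
  rw [MulAction.zpow_smul_eq_iff_minimalPeriod_dvd, MulAction.minimalPeriod_eq_card] at h1
  have h2 : Fintype.card (MulAction.orbit (Subgroup.zpowers τ) (1 : G)) = Nat.card H := by
    rw [← Nat.card_eq_fintype_card, orb h]
    rfl
  rw [h2] at h1
  have h3 : ((2 : ℕ) : ℤ) ∣ j - k := by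
    obtain ⟨r, hr⟩ := he
    refine dvd_trans ?_ h1
    rw [hr]
    exact ⟨(r : ℤ), by push_cast; ring⟩
  have h4 := (ZMod.intCast_zmod_eq_zero_iff_dvd (j - k) 2).2 (by exact_mod_cast h3)
  rw [Int.cast_sub] at h4
  exact sub_eq_zero.1 h4

theorem exists_chi [Finite G] {A : Set G} {H : Subgroup G} {τ : Equiv.Perm G}
    (h : CycOn A (H : Set G) τ) (he : Even (Nat.card H)) :
    ∃ χ : G → ZMod 2, ∀ x ∈ H, χ (τ x) = χ x + 1 := by
  classical
  let χ : G → ZMod 2 := fun x => if hx : ∃ k : ℤ, (τ ^ k) (1 : G) = x then (hx.choose : ZMod 2)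
    else 0
  have hχ : ∀ k : ℤ, χ ((τ ^ k) 1) = k := by
    intro k
    have hx : ∃ j : ℤ, (τ ^ j) (1 : G) = (τ ^ k) 1 := ⟨k, rfl⟩
    have h1 : χ ((τ ^ k) 1) = (hx.choose : ZMod 2) := dif_pos hx
    rw [h1]
    exact parity h he _ _ hx.choose_spec
  refine ⟨χ, fun x hx => ?_⟩
  obtain ⟨k, hk⟩ := h.cyc 1 H.one_mem x hx
  have h1 : τ x = (τ ^ (1 + k)) 1 := by
    rw [zpow_add, zpow_one, Equiv.Perm.mul_apply, hk]
  rw [h1, hχ, ← hk, hχ]
  push_cast
  ring

abbrev Z2 := Multiplicative (ZMod 2)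

abbrev zz : Z2 := Multiplicative.ofAdd (1 : ZMod 2)

theorem zz_ne : ∀ i : Z2, i * zz ≠ i := by
  intro i hi
  have h1 : zz = 1 := by
    have := mul_left_cancel (a := i) (b := zz) (c := 1) (by rw [hi, mul_one])
    exact this
  have h2 : (1 : ZMod 2) = 0 := congrArg Multiplicative.toAdd h1
  exact absurd h2 (by decide)

theorem zz_mul : (zz : Z2) * zz = 1 := by
  have h2 : (1 : ZMod 2) + 1 = 0 := by decide
  exact congrArg Multiplicative.ofAdd h2

theorem zz_zz (i : Z2) : i * zz * zz = i := by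
  rw [mul_assoc, zz_mul, mul_one]

theorem zz_or (i j : Z2) (h : i ≠ j) : i = j * zz := by
  have h1 : ∀ a b : ZMod 2, a ≠ b → a = b + 1 := by decide
  have h2 := h1 (Multiplicative.toAdd i) (Multiplicative.toAdd j)
    (fun hh => h (Multiplicative.toAdd.injective hh))
  exact Multiplicative.toAdd.injective h2

open Classical in
noncomputable def prismP {A : Set G} {H : Subgroup G} {τ : Equiv.Perm G}
    (h : CycOn A (H : Set G) τ) (c : G → Z2) (hc : ∀ x ∈ H, c (τ x) = c x * zz) :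
    Equiv.Perm (G × Z2) where
  toFun p := if p.1 ∈ H then (if p.2 = c p.1 then (p.1, p.2 * zz) else (τ p.1, p.2)) else p
  invFun p := if p.1 ∈ H then (if p.2 = c p.1 then (τ⁻¹ p.1, p.2) else (p.1, p.2 * zz)) else p
  left_inv := by
    rintro ⟨x, i⟩
    by_cases hx : x ∈ H
    · by_cases hi : i = c x
      · simp [hx, ← hi, zz_zz]
      · have h1 := zz_or _ _ hi
        have h2 := h.maps x hx
        have h3 : i = c (τ x) := by rw [hc x hx]; exact h1
        have h4 : τ x ∈ H := h2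
        simp only [hx, if_true, hi, if_false, h4, ← h3]
        rw [Prod.mk.injEq]
        exact ⟨Equiv.symm_apply_apply τ x, rfl⟩
    · simp [hx]
  right_inv := by
    rintro ⟨x, i⟩
    by_cases hx : x ∈ H
    · by_cases hi : i = c x
      · have h4 : τ⁻¹ x ∈ H := inv_maps h hx
        have h2 := hc _ h4
        rw [pinv1] at h2
        have h5 : ¬ (i = c (τ⁻¹ x)) := by
          rw [hi, h2]; exact zz_ne _
        simp only [hx, if_true, ← hi, h4, h5, if_false]
        rw [pinv1]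
      · have h1 := zz_or _ _ hi
        have h3 : i * zz = c x := by rw [h1, zz_zz]
        simp only [hx, if_true, hi, if_false, h3]
        rw [← h3, zz_zz]
    · simp [hx]

theorem prismP_eq {A : Set G} {H : Subgroup G} {τ : Equiv.Perm G}
    (h : CycOn A (H : Set G) τ) (c : G → Z2) (hc : ∀ x ∈ H, c (τ x) = c x * zz)
    {x : G} (hx : x ∈ H) : prismP h c hc (x, c x) = (x, c x * zz) := by
  simp [prismP, hx]

theorem prismP_ne {A : Set G} {H : Subgroup G} {τ : Equiv.Perm G}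
    (h : CycOn A (H : Set G) τ) (c : G → Z2) (hc : ∀ x ∈ H, c (τ x) = c x * zz)
    {x : G} (hx : x ∈ H) {i : Z2} (hi : i ≠ c x) : prismP h c hc (x, i) = (τ x, i) := by
  simp [prismP, hx, hi]

theorem prismP_out {A : Set G} {H : Subgroup G} {τ : Equiv.Perm G}
    (h : CycOn A (H : Set G) τ) (c : G → Z2) (hc : ∀ x ∈ H, c (τ x) = c x * zz)
    {x : G} (hx : x ∉ H) {i : Z2} : prismP h c hc (x, i) = (x, i) := by
  simp [prismP, hx]

theorem prismP_sc {A : Set G} {H : Subgroup G} {τ : Equiv.Perm G}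
    (h : CycOn A (H : Set G) τ) (c : G → Z2) (hc : ∀ x ∈ H, c (τ x) = c x * zz)
    {x : G} (hx : x ∈ H) : (prismP h c hc).SameCycle (x, c x) (τ x, c (τ x)) := by
  refine ⟨2, ?_⟩
  rw [zpow_ofNat, pow_two, Equiv.Perm.mul_apply, prismP_eq h c hc hx,
    prismP_ne h c hc hx (zz_ne _), hc x hx]

theorem prismP_sc' {A : Set G} {H : Subgroup G} {τ : Equiv.Perm G}
    (h : CycOn A (H : Set G) τ) (c : G → Z2) (hc : ∀ x ∈ H, c (τ x) = c x * zz)
    {x : G} (hx : x ∈ H) (i : Z2) : (prismP h c hc).SameCycle (x, c x) (x, i) := by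
  by_cases hi : i = c x
  · rw [hi]
  · refine ⟨1, ?_⟩
    rw [zpow_one, prismP_eq h c hc hx, ← zz_or _ _ hi]

theorem prismP_all {A : Set G} {H : Subgroup G} {τ : Equiv.Perm G}
    (h : CycOn A (H : Set G) τ) (c : G → Z2) (hc : ∀ x ∈ H, c (τ x) = c x * zz)
    {x : G} (hx : x ∈ H) (i : Z2) : (prismP h c hc).SameCycle (1, c 1) (x, i) := by
  refine Equiv.Perm.SameCycle.trans ?_ (prismP_sc' h c hc hx i)
  obtain ⟨k, rfl⟩ := h.cyc 1 H.one_mem x hx
  clear hx
  induction k with
  | zero =>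
    rw [zpow_zero, Equiv.Perm.one_apply]
  | succ j ih =>
    rw [add_comm, zpow_add, zpow_one, Equiv.Perm.mul_apply]
    exact ih.trans (prismP_sc h c hc (zpow_maps h _ H.one_mem))
  | pred j ih =>
    rw [sub_eq_add_neg, add_comm, zpow_add, zpow_neg_one, Equiv.Perm.mul_apply]
    have h1 := prismP_sc h c hc (inv_maps h (zpow_maps h (-(j : ℤ)) H.one_mem))
    rw [pinv1] at h1
    exact ih.trans h1.symm

theorem prism : S_prism.{u} := by
  intro G _ _ A hA H τ h he A' hA1 hA2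
  obtain ⟨χ, hχ⟩ := exists_chi h he
  let c : G → Z2 := fun x => Multiplicative.ofAdd (χ x)
  have hc : ∀ x ∈ H, c (τ x) = c x * zz := by
    intro x hx
    show Multiplicative.ofAdd (χ (τ x)) = _
    rw [hχ x hx]
    rfl
  have hm : ∀ (x : G) (i : Z2), (x, i) ∈ (H.prod ⊤ : Subgroup (G × Z2)) ↔ x ∈ H := by
    intro x i
    rw [Subgroup.mem_prod]
    simp
  refine ⟨prismP h c hc, ⟨?_, ?_, ?_, ?_⟩, ?_⟩
  · rintro ⟨x, i⟩ hx
    exact prismP_out h c hc (fun hh => hx ((hm x i).2 hh))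
  · rintro ⟨x, i⟩ hx
    have hx' := (hm x i).1 hx
    by_cases hi : i = c x
    · rw [hi, prismP_eq h c hc hx']
      exact (hm _ _).2 hx'
    · rw [prismP_ne h c hc hx' hi]
      exact (hm _ _).2 (h.maps _ hx')
  · rintro ⟨x, i⟩ hx
    have hx' := (hm x i).1 hx
    by_cases hi : i = c x
    · rw [hi, prismP_eq h c hc hx']
      have h1 : (x, c x)⁻¹ * (x, c x * zz) = ((1 : G), zz) := by
        ext <;> simp
      rw [h1]
      exact hA2
    · rw [prismP_ne h c hc hx' hi]
      have h1 : (x, i)⁻¹ * (τ x, i) = (x⁻¹ * τ x, 1) := by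
        ext <;> simp
      rw [h1]
      exact hA1 _ (h.step _ hx')
  · rintro ⟨x, i⟩ hx ⟨y, j⟩ hy
    exact (prismP_all h c hc ((hm _ _).1 hx) i).symm.trans (prismP_all h c hc ((hm _ _).1 hy) j)
  · rintro ⟨x, i⟩ hx
    have hx' := (hm x i).1 hx
    have h0 : ((x, i) : G × Z2) * (1, zz) = (x, i * zz) := by
      rw [Prod.mk_mul_mk, mul_one]
    rw [h0]
    by_cases hi : i = c x
    · left
      rw [hi, prismP_eq h c hc hx']
    · right
      have h1 := zz_or _ _ hi
      have h3 : i * zz = c x := by rw [h1, zz_zz]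
      rw [h3, prismP_eq h c hc hx', ← h1]

end prism

end Pool.Agent.N455.CayC
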